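import Mathlib
import Pool.Agent.Helper65.RP.Defs

/-!
# Project RP, module B3: `K[x]` is integral over `K[f]` for a regular polynomial map `f`
-/

set_option autoImplicit false

namespace Pool.Agent.Helper12.RP

open MvPolynomial Filter Topology
open Pool.Agent.Helper65.RP

/-- A ring homomorphism with finitely many module generators is integral. -/
theorem integral_of_span {R S : Type} [CommRing R] [CommRing S] (φ : R →+* S) (T : Set S)
    (hT : T.Finite)
    (h : ∀ P : AddSubgroup S, (∀ a, ∀ x ∈ P, φ a * x ∈ P) → T ⊆ P → P = ⊤) :
    ∀ x : S, φ.IsIntegralElem x := by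
  let _ := φ.toAlgebra
  have hspan : Submodule.span R T = ⊤ := by
    have h1 := h (Submodule.span R T).toAddSubgroup (fun a x hx => by
      have h2 := Submodule.smul_mem (Submodule.span R T) a hx
      rw [Algebra.smul_def] at h2
      exact h2) (fun t ht => Submodule.subset_span ht)
    ext x
    simp only [Submodule.mem_top, iff_true]
    have h2 : x ∈ (Submodule.span R T).toAddSubgroup := by
      rw [h1]
      trivial
    exact h2
  have : Module.Finite R S := by
    obtain ⟨T', hT'⟩ := hT.exists_finset_coe
    exact ⟨⟨T', by rw [hT', hspan]⟩⟩
  intro x
  exact IsIntegral.of_finite R x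

section B
variable {K Kb : Type} [Field K] [Field Kb] [Algebra K Kb] [IsAlgClosed Kb] {N d : ℕ}
  {f : Fin N → MvPolynomial (Fin N) K}

/-- Some power of each variable is in the ideal of the leading forms. -/
theorem exists_pow_mem (hf : Regular Kb d f) :
    ∃ e : ℕ, ∀ j : Fin N, (X j : MvPolynomial (Fin N) K) ^ e ∈
      Ideal.span (Set.range fun i => homogeneousComponent d (f i)) := by
  have h1 : ∀ j : Fin N, ∃ e : ℕ, (X j : MvPolynomial (Fin N) K) ^ e ∈
      Ideal.span (Set.range fun i => homogeneousComponent d (f i)) := by
    intro j
    have h2 : (X j : MvPolynomial (Fin N) K) ∈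
        (Ideal.span (Set.range fun i => homogeneousComponent d (f i))).radical := by
      rw [← vanishingIdeal_zeroLocus_eq_radical (K := Kb), mem_vanishingIdeal_iff]
      intro x hx
      rw [zeroLocus_span] at hx
      have h3 : x = 0 := hf.2 x fun i => hx _ ⟨i, rfl⟩
      rw [h3, aeval_X]
      rfl
    exact Ideal.mem_radical_iff.1 h2
  choose e he using h1
  refine ⟨∑ j, e j, fun j => ?_⟩
  have h3 : ∑ i, e i = e j + ∑ i ∈ Finset.univ.erase j, e i :=
    (Finset.add_sum_erase _ _ (Finset.mem_univ j)).symm
  rw [h3, pow_add]
  exact Ideal.mul_mem_right _ _ (he j)

/-- A homogeneous polynomial of large degree is a combination of the leading forms. -/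
theorem exists_comb (e : ℕ) (g : Fin N → MvPolynomial (Fin N) K)
    (he : ∀ j : Fin N, (X j : MvPolynomial (Fin N) K) ^ e ∈ Ideal.span (Set.range g))
    {D : ℕ} (hD : N * e < D) (p : MvPolynomial (Fin N) K) (hp : p.IsHomogeneous D) :
    p ∈ Ideal.span (Set.range g) := by
  rw [p.as_sum]
  refine Ideal.sum_mem _ fun m hm => ?_
  have h1 : ∑ j, m j = D := by
    have h2 := hp (mem_support_iff.1 hm)
    rw [← h2, Finsupp.weight_apply, Finsupp.sum_fintype _ _ (fun _ => by simp)]
    simp
  have h2 : ∃ j, e ≤ m j := by
    by_contra hcon
    push Not at hcon
    have h3 : ∑ j, m j ≤ ∑ _j : Fin N, e := Finset.sum_le_sum fun j _ => (hcon j).le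
    rw [Finset.sum_const, Finset.card_univ, Fintype.card_fin, smul_eq_mul] at h3
    omega
  obtain ⟨j, hj⟩ := h2
  have h3 : monomial m (coeff m p) =
      monomial (m - Finsupp.single j e) (coeff m p) * (X j : MvPolynomial (Fin N) K) ^ e := by
    rw [X_pow_eq_monomial, monomial_mul, mul_one, tsub_add_cancel_of_le]
    exact Finsupp.single_le_iff.2 hj
  rw [h3]
  exact Ideal.mul_mem_left _ _ (he j)

/-- B3 -/
theorem integral_step (hd : 1 ≤ d) (hf : Regular Kb d f) (i : Fin N) :
    ∃ R : Polynomial (MvPolynomial (Fin N) K), R.Monic ∧
      (R.map ((bind₁ f : MvPolynomial (Fin N) K →ₐ[K] MvPolynomial (Fin N) K) :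
        MvPolynomial (Fin N) K →+* MvPolynomial (Fin N) K)).eval (X i) = 0 := by
  obtain ⟨e, he⟩ := exists_pow_mem hf
  set φ : MvPolynomial (Fin N) K →+* MvPolynomial (Fin N) K :=
    ((bind₁ f : MvPolynomial (Fin N) K →ₐ[K] MvPolynomial (Fin N) K) :
        MvPolynomial (Fin N) K →+* MvPolynomial (Fin N) K) with hφ
  have hφX : ∀ j, φ (X j) = f j := fun j => by
    rw [hφ]
    exact bind₁_X_right f j
  have hφC : ∀ c, φ (C c) = C c := fun c => by
    rw [hφ]
    exact bind₁_C_right f c
  set D0 : ℕ := N * e + d with hD0
  -- the finite set of generators: monomials with all exponents at most `D0`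
  set T : Set (MvPolynomial (Fin N) K) :=
    (fun m : Fin N →₀ ℕ => monomial m (1 : K)) '' {m | ∀ j, m j ≤ D0} with hTdef
  have hTfin : T.Finite := by
    refine Set.Finite.image _ ?_
    refine Set.Finite.subset (Set.finite_Iic (Finsupp.equivFunOnFinite.symm (fun _ => D0))) ?_
    intro m hm j
    exact hm j
  have key := integral_of_span φ T hTfin (by
    intro P hP hTP
    have hC : ∀ (c : K) (x : MvPolynomial (Fin N) K), x ∈ P → C c * x ∈ P := by
      intro c x hx
      have := hP (C c) x hx
      rwa [hφC] at this
    have hsum : ∀ (s : Finset (Fin N)) (y : Fin N → MvPolynomial (Fin N) K),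
        (∀ j ∈ s, y j ∈ P) → ∑ j ∈ s, y j ∈ P := fun s y h => AddSubgroup.sum_mem P h
    have hdeg : ∀ D : ℕ, ∀ p : MvPolynomial (Fin N) K, p.totalDegree ≤ D → p ∈ P := by
      intro D
      induction D using Nat.strong_induction_on with
      | _ D ih =>
        intro p hp
        rcases Nat.lt_or_ge D0 D with hlt | hge
        · -- large degree
          have hpD : homogeneousComponent D p ∈
              Ideal.span (Set.range fun i => homogeneousComponent d (f i)) :=
            exists_comb e _ he (by omega) _ (homogeneousComponent_isHomogeneous D p)
          rw [Ideal.span, Submodule.mem_span_range_iff_exists_fun] at hpD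
          obtain ⟨c, hc⟩ := hpD
          -- homogeneous coefficients
          have hc2 : homogeneousComponent D p = ∑ j, homogeneousComponent (D - d) (c j) *
              homogeneousComponent d (f j) := by
            have h1 := congrArg (homogeneousComponent D) hc
            rw [map_sum] at h1
            rw [homogeneousComponent_of_mem (homogeneousComponent_isHomogeneous D p),
              if_pos rfl] at h1
            rw [← h1]
            refine Finset.sum_congr rfl fun j _ => ?_
            rw [smul_eq_mul]
            have h2 : c j = ∑ k ∈ Finset.range ((c j).totalDegree + 1),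
              homogeneousComponent k (c j) := (sum_homogeneousComponent (c j)).symm
            conv_lhs => rw [h2]
            rw [Finset.sum_mul, map_sum]
            have h3 : ∀ k ∈ Finset.range ((c j).totalDegree + 1),
                homogeneousComponent D (homogeneousComponent k (c j) *
                  homogeneousComponent d (f j)) =
                if k = D - d then homogeneousComponent k (c j) *
                  homogeneousComponent d (f j) else 0 := by
              intro k _
              rw [homogeneousComponent_of_mem
                ((homogeneousComponent_isHomogeneous k (c j)).mul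
                  (homogeneousComponent_isHomogeneous d (f j)))]
              by_cases hk : k = D - d
              · rw [if_pos hk, if_pos (by omega)]
              · rw [if_neg hk, if_neg (by omega)]
            rw [Finset.sum_congr rfl h3, Finset.sum_ite_eq']
            by_cases hk : D - d ∈ Finset.range ((c j).totalDegree + 1)
            · rw [if_pos hk]
            · rw [if_neg hk]
              rw [homogeneousComponent_eq_zero _ _ (by
                rw [Finset.mem_range] at hk
                omega), zero_mul]
          -- the remainder
          have hrem : ∀ (q : MvPolynomial (Fin N) K) (k : ℕ), q.totalDegree ≤ k → 1 ≤ k →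
              (q - homogeneousComponent k q).totalDegree ≤ k - 1 := by
            intro q k hq hk
            rw [totalDegree]
            refine Finset.sup_le fun m hm => ?_
            have h1 : coeff m (q - homogeneousComponent k q) ≠ 0 := mem_support_iff.1 hm
            rw [coeff_sub, coeff_homogeneousComponent] at h1
            have h2 : (m.sum fun _ e => e) = m.degree := rfl
            by_cases hmk : m.degree = k
            · rw [if_pos hmk, sub_self] at h1
              exact absurd rfl h1
            · rw [if_neg hmk, sub_zero] at h1
              have h3 := (le_totalDegree (mem_support_iff.2 h1)).trans hq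
              omega
          have hB : ∀ j, (homogeneousComponent (D - d) (c j)).totalDegree ≤ D - d := fun j =>
            (homogeneousComponent_isHomogeneous (D - d) (c j)).totalDegree_le
          have hp2 : p = (p - homogeneousComponent D p) +
              ((∑ j, φ (X j) * homogeneousComponent (D - d) (c j)) -
                ∑ j, homogeneousComponent (D - d) (c j) *
                  (f j - homogeneousComponent d (f j))) := by
            have h1 : (∑ j, φ (X j) * homogeneousComponent (D - d) (c j)) -
                ∑ j, homogeneousComponent (D - d) (c j) *
                  (f j - homogeneousComponent d (f j)) = homogeneousComponent D p := by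
              rw [hc2, ← Finset.sum_sub_distrib]
              refine Finset.sum_congr rfl fun j _ => ?_
              rw [hφX]
              ring
            rw [h1]
            ring
          rw [hp2]
          refine P.add_mem (ih (D - 1) (by omega) _ (hrem p D hp (by omega)))
            (P.sub_mem (hsum _ _ fun j _ => hP _ _ (ih (D - d) (by omega) _ (hB j)))
              (hsum _ _ fun j _ => ih (D - 1) (by omega) _ ?_))
          refine (totalDegree_mul _ _).trans ?_
          have h1 := hrem (f j) d (hf.1 j) hd
          have h2 := hB j
          omega
        · -- small degree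
          rw [p.as_sum]
          refine AddSubgroup.sum_mem P fun m hm => ?_
          have h1 : monomial m (coeff m p) = C (coeff m p) * monomial m 1 := by
            rw [C_mul_monomial, mul_one]
          rw [h1]
          refine hC _ _ (hTP ⟨m, fun j => ?_, rfl⟩)
          have h2 : m.degree ≤ D := (le_totalDegree hm).trans hp
          have h3 : m j ≤ m.degree := Finsupp.le_degree j m
          omega
    rw [eq_top_iff]
    intro x _
    exact hdeg _ x le_rfl) (X i)
  obtain ⟨R, hR, hR0⟩ := key
  refine ⟨R, hR, ?_⟩
  rw [Polynomial.eval_map]
  exact hR0

end B

end Pool.Agent.Helper12.RP
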